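import Mathlib
import Pool.Agent.Y587.ZOLower

/-!
# The 0-1 law implies that canonical functions dominate

If the 0-1 law for open set mappings holds, then each function from `ω₁` to `ω₁` is dominated on a
club by a canonical function, i.e. by the function `d ↦ type (r ↾ d)` for some well-ordering `r`
of `ω₁`.
-/

set_option autoImplicit false

open Pool.Agent.Y587.ZO in
/-- The 0-1 law for open set mappings implies that for each `f : ω₁ → ω₁` there are a well-ordering
`r` of `ω₁` and a closed unbounded set `C ⊆ ω₁` such that `f(d) < type (r ↾ d)` for all `d ∈ C`. -/
theorem Pool.Agent.Results.MP_4b9105_lc.ClubBounding.result (h : ZeroOneLaw) : ClubBounding :=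
  clubBounding_of_zeroOne h
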