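import Mathlib
import Pool.Agent.Y587.ZOUpper

/-!
# Martin's Maximum for forcing notions of cardinality at most the continuum gives the 0-1 law

`MM 𝔠` is the forcing axiom for `ℵ₁` dense sets and all forcing notions of cardinality at most the
continuum which preserve stationary subsets of `ω₁`. It implies the 0-1 law for open set mappings,
for all sets `X` and all regular cardinals `θ`.
-/

set_option autoImplicit false

open Cardinal Pool.Agent.Y587.ZO in
/-- Martin's Maximum for forcing notions of cardinality at most the continuum implies the 0-1 law
for open set mappings. -/
theorem Pool.Agent.Results.MP_4b9105_lc.MaximumForContinuum.result (hMM : MM 𝔠) : ZeroOneLaw :=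
  zeroOne_of_MM hMM
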